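import Pool.Agent.W2helper81.BY.Dim
import Pool.Agent.W2helper97.BY.BEL1
import Pool.Agent.W2helper12.BY.BEL2
import Pool.Agent.W2helper24.BY.BEL
import Pool.Agent.W2helper98.BY.ROOTS
import Pool.Agent.W2helper92.BY.POLY
import Pool.Agent.W2helper54.BY.GEN
import Pool.Agent.W2helper69.BY.LOC
import Pool.Agent.W2helper51.BY.ISO
import Pool.Agent.W2helper82.BY.CLEAR
import Pool.Agent.W2helper74.BY.CURVE
import Pool.Agent.W2helper15.BY.VAR
import Pool.Agent.W2helper71.BY.BAS

/-!
# The conjecture in dimension `m + 1` and families of punctured lines with disjoint sections

Let `k` be an algebraic closure of `ℚ` (any field of characteristic zero in the formal statement). The question is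
whether each semisimple quasi-geometric flat bundle on `Y` is geometric. We prove that it has a positive answer for all
smooth affine varieties `Y` of dimension `m + 1` if and only if it has a positive answer for those of the following
form: `Y` is the complement in `V × 𝔸¹` of the graphs of finitely many functions `s_i` on `V`, where `V` is a principal
open subset of the affine space `𝔸^m` and the differences `s_i - s_j` have no zeros on `V`.

So `Y` is the inverse image of the forgetful map `Conf_{r+1}(𝔸¹) → Conf_r(𝔸¹)` of configuration spaces under a map
`V → Conf_r(𝔸¹)`.

`Flat k` is the type of the data which are used about flat bundles on smooth affine varieties over `k`, and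
`IsFlat T` lists the properties which are used. For regular-singular flat bundles on `Y_ℂ`, with `Y` a smooth affine
variety over an algebraic closure `k` of `ℚ`, all of them are elementary:
* restriction to a dense open `U ⊂ Y`: `π₁(U) → π₁(Y)` is surjective, so semisimple and quasi-geometric flat bundles
  stay so; and geometricity only concerns some dense open subset;
* direct image under a finite étale `f : Y' → Y`: it is defined over `k` if the flat bundle is, and its monodromy
  representation is the induced one; so semisimple and quasi-geometric flat bundles stay so;
* inverse images under finite étale maps of Gauss-Manin flat bundles are Gauss-Manin flat bundles, and every flat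
  bundle `E` on `Y'` is a quotient of `f^* f_* E`.

The proof shows that every smooth affine variety of dimension `m + 1` has a dense open subset which is a finite étale
covering of such a `Y` (generic finite étaleness of a map to affine space, and Belyi's first step over the function
field of `𝔸^m`).
-/

set_option autoImplicit false

namespace Pool.Agent.Results.MP_e3793a_ag.DisjointSections

open Polynomial Pool.Agent.W2helper81.BY

/-- **The conjecture holds for all smooth affine varieties of dimension `m + 1` if and only if it holds for the
complements of disjoint graphs in `V × 𝔸¹`, `V = 𝔸^m - {g = 0}`.** -/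
theorem result (k : Type) [Field k] [CharZero k] (T : Flat k) (hT : IsFlat T) (m : ℕ) :
    (∀ (A : Type) [CommRing A] [Algebra k A], Var k A → Algebra.trdeg k A = (m + 1 : ℕ) → Holds T A) ↔
      ∀ g : MvPolynomial (Fin m) k, g ≠ 0 → ∀ (r : ℕ) (s : Fin r → Localization.Away g),
        (∀ i j, i ≠ j → IsUnit (s i - s j)) → Holds T (Punctured s) := by
  constructor
  · intro h g hg r s _
    have hR := dom_away hg
    refine h _ ?_ (trdeg_punctured m g hg r s)
    exact Pool.Agent.W2helper15.BY.VAR1_ok k _ _ (prod_ne s) (Pool.Agent.W2helper15.BY.VAR2_ok k _
      (Pool.Agent.W2helper15.BY.VAR1_ok k _ g hg (Pool.Agent.W2helper15.BY.VAR3_ok k m)))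
  · intro h A _ _ hA hd
    have hAd : IsDomain A := hA.dom
    obtain ⟨x, hx⟩ := basis_of_trdeg A (m + 1) hd
    exact main_dim hT Pool.Agent.W2helper97.BY.BEL1_ok Pool.Agent.W2helper98.BY.ROOTS_ok
      Pool.Agent.W2helper92.BY.POLY_ok Pool.Agent.W2helper54.BY.GEN_ok Pool.Agent.W2helper69.BY.LOC_ok
      Pool.Agent.W2helper51.BY.ISO_ok Pool.Agent.W2helper82.BY.CLEAR_ok Pool.Agent.W2helper15.BY.VAR1_ok
      Pool.Agent.W2helper15.BY.VAR2_ok Pool.Agent.W2helper15.BY.VAR3_ok Pool.Agent.W2helper71.BY.BAS_ok
      m h A hA x hx

end Pool.Agent.Results.MP_e3793a_ag.DisjointSections
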