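import Pool.Agent.W2helper81.BY.Dim
import Pool.Agent.W2helper97.BY.BEL1
import Pool.Agent.W2helper12.BY.BEL2
import Pool.Agent.W2helper24.BY.BEL
import Pool.Agent.W2helper98.BY.ROOTS
import Pool.Agent.W2helper92.BY.POLY
import Pool.Agent.W2helper54.BY.GEN
import Pool.Agent.W2helper69.BY.LOC
import Pool.Agent.W2helper51.BY.ISO
import Pool.Agent.W2helper82.BY.CLEAR
import Pool.Agent.W2helper74.BY.CURVE
import Pool.Agent.W2helper15.BY.VAR
import Pool.Agent.W2helper71.BY.BAS

/-!
# The conjecture for all curves and for the thrice punctured line

Let `k` be an algebraic closure of `ℚ`. The question is whether each semisimple quasi-geometric flat bundle on `Y` is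
geometric. We prove that it has a positive answer for all smooth curves `Y` over `k` if and only if it has a positive
answer for `Y = ℙ¹ - {0, 1, ∞}`, that is, for the pairs of invertible matrices with algebraic entries (up to
conjugation, generating a semisimple representation of the free group) whose flat bundle is defined over `k`.

`Flat k` is the type of the data which are used about flat bundles on smooth affine varieties over `k`, and
`IsFlat T` lists the properties which are used. For regular-singular flat bundles on `Y_ℂ`, with `Y` a smooth affine
variety over an algebraic closure `k` of `ℚ`, all of them are elementary: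
* restriction to a dense open `U ⊂ Y`: `π₁(U) → π₁(Y)` is surjective, so semisimple and quasi-geometric flat bundles
  stay so; and geometricity only concerns some dense open subset;
* direct image under a finite étale `f : Y' → Y`: it is defined over `k` if the flat bundle is, and its monodromy
  representation is the induced one; so semisimple and quasi-geometric flat bundles stay so;
* inverse images under finite étale maps of Gauss-Manin flat bundles are Gauss-Manin flat bundles, and every flat
  bundle `E` on `Y'` is a quotient of `f^* f_* E`.

The proof contains a formal proof of Belyi's theorem in the following form: every smooth affine curve over `k` has a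
dense open subset which is a finite étale covering of `ℙ¹ - {0, 1, ∞}`.
-/

set_option autoImplicit false

namespace Pool.Agent.Results.MP_e3793a_ag.ThricePuncturedLine

open Polynomial Pool.Agent.W2helper81.BY

/-- **The conjecture holds for all smooth affine curves over the algebraic numbers if and only if it holds for the
thrice punctured line `Spec k[X, 1 / (X (X - 1))]`.** -/
theorem result (k : Type) [Field k] [CharZero k] [IsAlgClosed k] [Algebra.IsAlgebraic ℚ k] (T : Flat k)
    (hT : IsFlat T) :
    (∀ (A : Type) [CommRing A] [Algebra k A], Var k A → Algebra.trdeg k A = 1 → Holds T A) ↔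
      Holds T (Localization.Away (X * (X - 1) : k[X])) := by
  have hP : (X * (X - 1) : k[X]) ≠ 0 := mul_ne_zero X_ne_zero (by
    have := X_sub_C_ne_zero (1 : k)
    rwa [map_one] at this)
  constructor
  · intro h
    refine h _ ?_ ?_
    · exact Pool.Agent.W2helper15.BY.VAR1_ok k _ _ hP
        (Pool.Agent.W2helper15.BY.VAR2_ok k k ⟨inferInstance, inferInstance⟩)
    · rw [trdeg_away _ _ hP, Polynomial.trdeg_of_isDomain]
  · intro h A _ _ hA hd
    have hAd : IsDomain A := hA.dom
    obtain ⟨x, hx⟩ := basis_of_trdeg A 1 (by rw [hd, Nat.cast_one])
    exact main_curve hT Pool.Agent.W2helper97.BY.BEL1_ok Pool.Agent.W2helper12.BY.BEL2_ok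
      Pool.Agent.W2helper24.BY.BEL_ok Pool.Agent.W2helper98.BY.ROOTS_ok Pool.Agent.W2helper92.BY.POLY_ok
      Pool.Agent.W2helper54.BY.GEN_ok Pool.Agent.W2helper69.BY.LOC_ok Pool.Agent.W2helper74.BY.CURVE_ok
      Pool.Agent.W2helper15.BY.VAR1_ok Pool.Agent.W2helper15.BY.VAR2_ok Pool.Agent.W2helper71.BY.BAS_ok
      h A hA x hx

end Pool.Agent.Results.MP_e3793a_ag.ThricePuncturedLine
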